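import Mathlib

/-! Size and denominators of real unimodular matrices, and a pigeonhole principle. -/

set_option autoImplicit false

namespace Pool.Agent.Lib.MP_9e6b46_al.LU

open Finset

/-- The group of real unimodular two by two matrices. -/
abbrev SL : Type := Matrix.SpecialLinearGroup (Fin 2) ℝ

/-- All entries have absolute value at most `T`. -/
def Bd (T : ℝ) (g : SL) : Prop := ∀ i j, |g.1 i j| ≤ T

/-- All entries become integers after multiplication by `c`. -/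
def Den (c : ℝ) (g : SL) : Prop := ∀ i j, ∃ z : ℤ, c * g.1 i j = z

theorem mul_ent (g h : SL) (i j : Fin 2) :
    (g * h).1 i j = g.1 i 0 * h.1 0 j + g.1 i 1 * h.1 1 j := by
  rw [Matrix.SpecialLinearGroup.coe_mul, Matrix.mul_apply, Fin.sum_univ_two]

theorem inv00 (g : SL) : (g⁻¹).1 0 0 = g.1 1 1 := by
  rw [Matrix.SpecialLinearGroup.SL2_inv_expl]; rfl

theorem inv01 (g : SL) : (g⁻¹).1 0 1 = -g.1 0 1 := by
  rw [Matrix.SpecialLinearGroup.SL2_inv_expl]; rfl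

theorem inv10 (g : SL) : (g⁻¹).1 1 0 = -g.1 1 0 := by
  rw [Matrix.SpecialLinearGroup.SL2_inv_expl]; rfl

theorem inv11 (g : SL) : (g⁻¹).1 1 1 = g.1 0 0 := by
  rw [Matrix.SpecialLinearGroup.SL2_inv_expl]; rfl

theorem det_ent (g : SL) : g.1 0 0 * g.1 1 1 - g.1 0 1 * g.1 1 0 = 1 := by
  rw [← Matrix.det_fin_two]; exact g.2

theorem Bd.mono {T T' : ℝ} {g : SL} (h : Bd T g) (hT : T ≤ T') : Bd T' g :=
  fun i j => (h i j).trans hT

theorem Bd.mul {T T' : ℝ} {g h : SL} (hg : Bd T g) (hh : Bd T' h) : Bd (2 * T * T') (g * h) := by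
  intro i j
  have hT : 0 ≤ T := (abs_nonneg _).trans (hg 0 0)
  have h1 := mul_le_mul (hg i 0) (hh 0 j) (abs_nonneg _) hT
  have h2 := mul_le_mul (hg i 1) (hh 1 j) (abs_nonneg _) hT
  rw [mul_ent]
  refine (abs_add_le _ _).trans ?_
  rw [abs_mul, abs_mul]
  linarith

theorem Bd.inv {T : ℝ} {g : SL} (h : Bd T g) : Bd T g⁻¹ := by
  simp only [Bd, Fin.forall_fin_two, inv00, inv01, inv10, inv11, abs_neg] at h ⊢
  tauto

theorem bd_one : Bd 1 1 := by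
  simp [Bd, Fin.forall_fin_two]

theorem Den.mul {c c' : ℝ} {g h : SL} (hg : Den c g) (hh : Den c' h) : Den (c * c') (g * h) := by
  intro i j
  obtain ⟨a, ha⟩ := hg i 0
  obtain ⟨b, hb⟩ := hg i 1
  obtain ⟨d, hd⟩ := hh 0 j
  obtain ⟨e, he⟩ := hh 1 j
  refine ⟨a * d + b * e, ?_⟩
  rw [mul_ent]
  push_cast
  rw [← ha, ← hb, ← hd, ← he]
  ring

theorem Den.inv {c : ℝ} {g : SL} (h : Den c g) : Den c g⁻¹ := by
  simp only [Den, Fin.forall_fin_two, inv00, inv01, inv10, inv11] at h ⊢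
  obtain ⟨⟨h1, a, ha⟩, ⟨b, hb⟩, h4⟩ := h
  exact ⟨⟨h4, -a, by push_cast; rw [← ha]; ring⟩, ⟨-b, by push_cast; rw [← hb]; ring⟩, h1⟩

theorem den_one : Den 1 1 := by
  simp only [Den, Fin.forall_fin_two]
  exact ⟨⟨⟨1, by simp⟩, 0, by simp⟩, ⟨0, by simp⟩, 1, by simp⟩

theorem Den.mul_int {c : ℝ} {g : SL} (h : Den c g) (k : ℤ) : Den (k * c) g := by
  intro i j
  obtain ⟨a, ha⟩ := h i j
  exact ⟨k * a, by push_cast; rw [← ha]; ring⟩

theorem Den.pow {c : ℝ} {g : SL} (h : Den c g) (n : ℕ) : Den (c ^ n) (g ^ n) := by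
  induction n with
  | zero => simpa using den_one
  | succ n ih => rw [pow_succ, pow_succ]; exact ih.mul h

/-- The number of bins used for matrices with entries at most `2 ^ t`. -/
def nb (t : ℕ) : ℕ := 5 * (4 * t + 3) * 4 ^ t

theorem close_aux {a b c d a' b' c' d' P : ℝ} (h : a * d - b * c = 1) (h' : a' * d' - b' * c' = 1)
    (hP : 0 < P) (h1 : P ≤ c ^ 2 + d ^ 2) (h2 : c ^ 2 + d ^ 2 < 2 * P)
    (h1' : P ≤ c' ^ 2 + d' ^ 2) (h2' : c' ^ 2 + d' ^ 2 < 2 * P)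
    (h3 : |(a * c + b * d) * P / (c ^ 2 + d ^ 2) - (a' * c' + b' * d') * P / (c' ^ 2 + d' ^ 2)|
      < 1) :
    (d * a' - b * c') ^ 2 + (d * b' - b * d') ^ 2 + (a * c' - c * a') ^ 2 + (a * d' - c * b') ^ 2
      ≤ 9 := by
  obtain ⟨g, hg⟩ : ∃ g, g = c ^ 2 + d ^ 2 := ⟨_, rfl⟩
  obtain ⟨g', hg'⟩ : ∃ g', g' = c' ^ 2 + d' ^ 2 := ⟨_, rfl⟩
  obtain ⟨x, hx⟩ : ∃ x, x = a * c + b * d := ⟨_, rfl⟩
  obtain ⟨x', hx'⟩ : ∃ x', x' = a' * c' + b' * d' := ⟨_, rfl⟩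
  have e1 : (a ^ 2 + b ^ 2) * g = 1 + x ^ 2 := by
    rw [hg, hx]; linear_combination (a * d - b * c + 1) * h
  have e2 : (a' ^ 2 + b' ^ 2) * g' = 1 + x' ^ 2 := by
    rw [hg', hx']; linear_combination (a' * d' - b' * c' + 1) * h'
  have e3 : (d * a' - b * c') ^ 2 + (d * b' - b * d') ^ 2 + (a * c' - c * a') ^ 2
      + (a * d' - c * b') ^ 2 = (a' ^ 2 + b' ^ 2) * g + (a ^ 2 + b ^ 2) * g' - 2 * x * x' := by
    rw [hg, hg', hx, hx']; ring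
  rw [← hg] at h1 h2 h3
  rw [← hg'] at h1' h2' h3
  rw [← hx, ← hx'] at h3
  have g0 : 0 < g := by linarith
  have g0' : 0 < g' := by linarith
  have gg : 0 < g * g' := by positivity
  rw [e3]
  refine le_of_mul_le_mul_right ?_ gg
  have e4 : ((a' ^ 2 + b' ^ 2) * g + (a ^ 2 + b ^ 2) * g' - 2 * x * x') * (g * g')
      = g ^ 2 + g' ^ 2 + (x * g' - x' * g) ^ 2 := by
    linear_combination g ^ 2 * e2 + g' ^ 2 * e1
  have e5 : x * P / g - x' * P / g' = (x * g' - x' * g) * P / (g * g') := by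
    field_simp
  rw [e5, abs_div, abs_of_pos gg, div_lt_one gg] at h3
  have h4 : ((x * g' - x' * g) * P) ^ 2 ≤ (g * g') ^ 2 := by
    rw [← sq_abs]; gcongr
  have h5 : g * g' ≤ 4 * P ^ 2 := by nlinarith
  have h6 : (x * g' - x' * g) ^ 2 ≤ 4 * (g * g') := by
    refine le_of_mul_le_mul_right ?_ (pow_pos hP 2)
    calc (x * g' - x' * g) ^ 2 * P ^ 2 = ((x * g' - x' * g) * P) ^ 2 := by ring
      _ ≤ (g * g') * (g * g') := by rw [← sq]; exact h4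
      _ ≤ (g * g') * (4 * P ^ 2) := by gcongr
      _ = 4 * (g * g') * P ^ 2 := by ring
  rw [e4]
  nlinarith [mul_pos (by linarith : 0 < 2 * g - g') (by linarith : 0 < 2 * g' - g)]

theorem gam_pos (g : SL) : 0 < g.1 1 0 ^ 2 + g.1 1 1 ^ 2 := by
  have := det_ent g
  by_contra h
  have h1 : g.1 1 0 = 0 := by nlinarith [sq_nonneg (g.1 1 0), sq_nonneg (g.1 1 1)]
  have h2 : g.1 1 1 = 0 := by nlinarith [sq_nonneg (g.1 1 0), sq_nonneg (g.1 1 1)]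
  rw [h1, h2] at this
  simp at this

/-- The bin of a matrix: a dyadic box containing the image of `i` in the upper half plane. -/
noncomputable def bin (g : SL) : ℤ × ℤ :=
  (Int.log 2 (g.1 1 0 ^ 2 + g.1 1 1 ^ 2),
    ⌊(g.1 0 0 * g.1 1 0 + g.1 0 1 * g.1 1 1) * (2 : ℝ) ^ Int.log 2 (g.1 1 0 ^ 2 + g.1 1 1 ^ 2)
      / (g.1 1 0 ^ 2 + g.1 1 1 ^ 2)⌋)

theorem log_bounds {x : ℝ} (hx : 0 < x) :
    (2 : ℝ) ^ Int.log 2 x ≤ x ∧ x < 2 * (2 : ℝ) ^ Int.log 2 x := by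
  have h1 := Int.zpow_log_le_self (b := 2) (by norm_num) hx
  have h2 := Int.lt_zpow_succ_log_self (b := 2) (by norm_num) x
  rw [Nat.cast_ofNat] at h1 h2
  rw [zpow_add_one₀ two_ne_zero, mul_comm] at h2
  exact ⟨h1, h2⟩

theorem bin_close {x y : SL} (h : bin x = bin y) : Bd 3 (x⁻¹ * y) := by
  simp only [bin, Prod.mk.injEq] at h
  obtain ⟨h1, h2⟩ := h
  obtain ⟨a1, a2⟩ := log_bounds (gam_pos x)
  obtain ⟨b1, b2⟩ := log_bounds (gam_pos y)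
  rw [← h1] at h2 b1 b2
  have key := close_aux (det_ent x) (det_ent y) (zpow_pos two_pos _) a1 a2 b1 b2
    (Int.abs_sub_lt_one_of_floor_eq_floor h2)
  have s1 := sq_nonneg (x.1 1 1 * y.1 0 0 - x.1 0 1 * y.1 1 0)
  have s2 := sq_nonneg (x.1 1 1 * y.1 0 1 - x.1 0 1 * y.1 1 1)
  have s3 := sq_nonneg (x.1 0 0 * y.1 1 0 - x.1 1 0 * y.1 0 0)
  have s4 := sq_nonneg (x.1 0 0 * y.1 1 1 - x.1 1 0 * y.1 0 1)
  simp only [Bd, Fin.forall_fin_two, mul_ent, inv00, inv01, inv10, inv11]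
  refine ⟨⟨?_, ?_⟩, ?_, ?_⟩ <;> refine abs_le_of_sq_le_sq' ?_ (by norm_num) |> abs_le.2 <;>
    nlinarith

/-- The set of bins. -/
noncomputable def bins (t : ℕ) : Finset (ℤ × ℤ) :=
  Icc (-(2 * t + 1 : ℤ)) (2 * t + 1) ×ˢ Icc (-(2 * 4 ^ t : ℤ)) (2 * 4 ^ t)

theorem card_bins (t : ℕ) : #(bins t) ≤ nb t := by
  have h1 : (1 : ℕ) ≤ 4 ^ t := Nat.one_le_pow _ _ (by norm_num)
  rw [bins, card_product, Int.card_Icc, Int.card_Icc, nb]
  have e1 : (2 * t + 1 + 1 - -(2 * t + 1) : ℤ).toNat = 4 * t + 3 := by omega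
  have e2 : (2 * 4 ^ t + 1 - -(2 * 4 ^ t) : ℤ).toNat = 4 * 4 ^ t + 1 := by
    have : (4 : ℤ) ^ t = ((4 ^ t : ℕ) : ℤ) := by push_cast; rfl
    rw [this]
    omega
  rw [e1, e2]
  nlinarith

theorem bin_mem {t : ℕ} {g : SL} (h : Bd (2 ^ t) g) : bin g ∈ bins t := by
  have hd := det_ent g
  have hp := gam_pos g
  obtain ⟨a1, a2⟩ := log_bounds hp
  have e4 : (4 : ℝ) ^ t = 2 ^ t * 2 ^ t := by rw [← mul_pow]; norm_num
  have hm : ∀ i j k l, |g.1 i j * g.1 k l| ≤ 4 ^ t := fun i j k l => by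
    rw [abs_mul, e4]
    exact mul_le_mul (h i j) (h k l) (abs_nonneg _) (by positivity)
  have e2 : (2 : ℝ) ^ (2 * t + 1 : ℤ) = 2 * 4 ^ t := by
    rw [e4, zpow_add_one₀ two_ne_zero, two_mul, zpow_add₀ two_ne_zero, zpow_natCast]; ring
  have p4 : (0 : ℝ) < 4 ^ t := by positivity
  simp only [bins, bin, mem_product, mem_Icc]
  refine ⟨⟨?_, ?_⟩, ?_⟩
  · rw [← Int.zpow_le_iff_le_log (by norm_num) hp, Nat.cast_ofNat, zpow_neg, e2,
      inv_le_iff_one_le_mul₀ (by positivity)]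
    have := (abs_le.1 (hm 0 0 0 0)).2
    have := (abs_le.1 (hm 0 1 0 1)).2
    have e : (g.1 0 0 * g.1 0 0 + g.1 0 1 * g.1 0 1) * (g.1 1 0 ^ 2 + g.1 1 1 ^ 2)
        = 1 + (g.1 0 0 * g.1 1 0 + g.1 0 1 * g.1 1 1) ^ 2 := by
      linear_combination (g.1 0 0 * g.1 1 1 - g.1 0 1 * g.1 1 0 + 1) * hd
    nlinarith [sq_nonneg (g.1 0 0 * g.1 1 0 + g.1 0 1 * g.1 1 1)]
  · rw [← zpow_le_zpow_iff_right₀ (one_lt_two (α := ℝ)), e2]
    have := (abs_le.1 (hm 1 0 1 0)).2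
    have := (abs_le.1 (hm 1 1 1 1)).2
    nlinarith
  · have h1 := abs_le.1 (hm 0 0 1 0)
    have h2 := abs_le.1 (hm 0 1 1 1)
    have hP : (0 : ℝ) < 2 ^ Int.log 2 (g.1 1 0 ^ 2 + g.1 1 1 ^ 2) := zpow_pos two_pos _
    constructor
    · rw [Int.le_floor, le_div_iff₀ hp]
      push_cast
      nlinarith
    · rw [Int.floor_le_iff, div_lt_iff₀ hp]
      push_cast
      nlinarith

theorem big_fibre {α : Type} (X : Finset α) (f : α → SL) (t : ℕ)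
    (h : ∀ x ∈ X, Bd (2 ^ t) (f x)) :
    ∃ Y ⊆ X, #X ≤ nb t * #Y ∧ ∀ x ∈ Y, ∀ y ∈ Y, Bd 3 ((f x)⁻¹ * f y) := by
  obtain ⟨b, -, hb⟩ := exists_max_image (bins t) (fun b => #{x ∈ X | bin (f x) = b})
    ⟨(0, 0), by
      have : (0 : ℤ) ≤ 4 ^ t := by positivity
      simp only [bins, mem_product, mem_Icc]
      omega⟩
  refine ⟨{x ∈ X | bin (f x) = b}, filter_subset _ _, ?_, fun x hx y hy =>
    bin_close ((mem_filter.1 hx).2.trans (mem_filter.1 hy).2.symm)⟩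
  refine (card_le_mul_card_image_of_maps_to (fun x hx => bin_mem (h x hx)) _ hb).trans ?_
  rw [mul_comm]
  exact Nat.mul_le_mul_right _ (card_bins t)

open Classical in
theorem many_pairs {α : Type} (X : Finset α) (f : α → SL) (t : ℕ)
    (h : ∀ x ∈ X, Bd (2 ^ t) (f x)) :
    #X ^ 2 ≤ nb t * #{p ∈ X ×ˢ X | Bd 3 ((f p.1)⁻¹ * f p.2)} := by
  rw [card_eq_sum_card_fiberwise (f := fun x => bin (f x)) (t := bins t)
    fun x hx => bin_mem (h x hx),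
    card_eq_sum_card_fiberwise (f := fun p : α × α => bin (f p.1)) (t := bins t)
    fun p hp => bin_mem (h _ (mem_product.1 (mem_filter.1 hp).1).1)]
  refine sq_sum_le_card_mul_sum_sq.trans (Nat.mul_le_mul (card_bins t) (sum_le_sum fun b _ => ?_))
  rw [sq, ← card_product]
  refine card_le_card fun p hp => ?_
  simp only [mem_product, mem_filter] at hp ⊢
  exact ⟨⟨⟨hp.1.1, hp.2.1⟩, bin_close (hp.1.2.trans hp.2.2.symm)⟩, hp.1.2⟩

theorem nb_le (σ τ j : ℕ) : nb (σ + τ * j) ≤ 5 * (4 * σ + 4 * τ + 3) * 4 ^ σ * (2 * 4 ^ τ) ^ j := by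
  have h1 : j + 1 ≤ 2 ^ j := Nat.lt_two_pow_self
  have h2 : 4 * (σ + τ * j) + 3 ≤ (4 * σ + 4 * τ + 3) * 2 ^ j :=
    le_trans (by nlinarith) (Nat.mul_le_mul_left _ h1)
  calc nb (σ + τ * j) ≤ 5 * ((4 * σ + 4 * τ + 3) * 2 ^ j) * 4 ^ (σ + τ * j) := by
        unfold nb; gcongr
    _ = _ := by rw [pow_add, pow_mul, mul_pow]; ring

/-- The least positive denominator. -/
noncomputable def md (h : SL) : ℕ := sInf {m : ℕ | 0 < m ∧ Den m h}

theorem md_spec {h : SL} {n : ℕ} (hn : 0 < n) (hd : Den n h) : 0 < md h ∧ Den (md h) h :=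
  Nat.sInf_mem (s := {m : ℕ | 0 < m ∧ Den m h}) ⟨n, hn, hd⟩

theorem md_dvd {h : SL} (h0 : 0 < md h) (hm : Den (md h) h) {c : ℝ} (hc : Den c h) :
    ∃ k : ℤ, c = md h * k := by
  have hd := det_ent h
  obtain ⟨a, ha⟩ := hc 0 0
  obtain ⟨b, hb⟩ := hc 0 1
  obtain ⟨a', ha'⟩ := hc 1 0
  obtain ⟨b', hb'⟩ := hc 1 1
  obtain ⟨u, hu⟩ := hm 1 0
  obtain ⟨v, hv⟩ := hm 1 1
  have e1 : c * md h = (a * v - b * u : ℤ) := by
    push_cast
    rw [← ha, ← hb, ← hu, ← hv]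
    linear_combination -(c * md h) * hd
  have e2 : c ^ 2 = (a * b' - b * a' : ℤ) := by
    push_cast
    rw [← ha, ← hb, ← ha', ← hb']
    linear_combination -c ^ 2 * hd
  have e3 : (md h : ℤ) ^ 2 ∣ (a * v - b * u) ^ 2 := by
    refine ⟨a * b' - b * a', ?_⟩
    apply Int.cast_injective (α := ℝ)
    rw [Int.cast_pow, ← e1, Int.cast_mul, ← e2]
    push_cast
    ring
  obtain ⟨z, hz⟩ := (Int.pow_dvd_pow_iff two_ne_zero).1 e3
  have m0 : (md h : ℝ) ≠ 0 := by exact_mod_cast h0.ne'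
  have e4 : c = z := by
    refine mul_right_cancel₀ m0 ?_
    rw [e1, hz]
    push_cast
    ring
  have m1 : (0 : ℤ) < md h := by exact_mod_cast h0
  have r0 := Int.emod_nonneg z m1.ne'
  have r1 := Int.emod_lt_of_pos z m1
  have r2 := Int.emod_add_mul_ediv z (md h)
  have r3 : Den ((z % md h).toNat : ℕ) h := by
    intro i j
    obtain ⟨x, hx⟩ := hc i j
    obtain ⟨y, hy⟩ := hm i j
    refine ⟨x - z / md h * y, ?_⟩
    have : (((z % md h).toNat : ℕ) : ℝ) = z - md h * (z / md h : ℤ) := by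
      rw [← Int.cast_natCast, Int.toNat_of_nonneg r0]
      exact_mod_cast eq_sub_of_add_eq r2
    rw [this, Int.cast_sub, Int.cast_mul, ← hx, ← hy, e4]
    ring
  have r4 : z % md h = 0 := by
    by_contra hne
    have : md h ≤ (z % md h).toNat :=
      Nat.sInf_le (s := {m : ℕ | 0 < m ∧ Den m h}) ⟨by omega, r3⟩
    omega
  refine ⟨z / md h, ?_⟩
  rw [r4, zero_add] at r2
  rw [e4]
  exact_mod_cast r2.symm

theorem den_minor {n : ℝ} {x x₀ h : SL} (h1 : Den n x) (h2 : Den n x₀) (h3 : Den n (x * h))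
    (h4 : Den n (x₀ * h)) (i j : Fin 2) :
    Den (n ^ 2 * (x.1 i 0 * x₀.1 j 1 - x.1 i 1 * x₀.1 j 0)) h := by
  obtain ⟨a, ha⟩ := h1 i 0
  obtain ⟨b, hb⟩ := h1 i 1
  obtain ⟨c, hc⟩ := h2 j 0
  obtain ⟨d, hd⟩ := h2 j 1
  simp only [Den, Fin.forall_fin_two (p := fun k => ∀ l, ∃ z : ℤ, _ * h.1 k l = z)]
  constructor <;> intro l <;> obtain ⟨y, hy⟩ := h3 i l <;> obtain ⟨y', hy'⟩ := h4 j l <;>
    rw [mul_ent] at hy hy'
  · refine ⟨d * y - b * y', ?_⟩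
    push_cast
    rw [← hd, ← hb, ← hy, ← hy']
    ring
  · refine ⟨a * y' - c * y, ?_⟩
    push_cast
    rw [← ha, ← hc, ← hy, ← hy']
    ring

theorem four_point {n : ℕ} (hn : 0 < n) {x x₀ h : SL} (h1 : Den n x) (h2 : Den n x₀)
    (h3 : Den n (x * h)) (h4 : Den n (x₀ * h)) :
    md h ∣ n ^ 2 ∧ Den (md h) h ∧ Den (n ^ 2 / md h : ℕ) (x * x₀⁻¹) := by
  have h5 : Den (n ^ 2 : ℕ) h := by
    have := h1.inv.mul h3
    rwa [inv_mul_cancel_left, ← sq, ← Nat.cast_pow] at this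
  obtain ⟨m0, m1⟩ := md_spec (pow_pos hn 2) h5
  obtain ⟨k, hk⟩ := md_dvd m0 m1 h5
  have hdvd : md h ∣ n ^ 2 := Int.natCast_dvd_natCast.1 ⟨k, by exact_mod_cast hk⟩
  have m2 : (md h : ℝ) ≠ 0 := by exact_mod_cast m0.ne'
  refine ⟨hdvd, m1, ?_⟩
  have key : ∀ i j, ∃ z : ℤ, ((n ^ 2 / md h : ℕ) : ℝ) *
      (x.1 i 0 * x₀.1 j 1 - x.1 i 1 * x₀.1 j 0) = z := by
    intro i j
    obtain ⟨z, hz⟩ := md_dvd m0 m1 (den_minor h1 h2 h3 h4 i j)
    refine ⟨z, ?_⟩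
    rw [Nat.cast_div hdvd m2, div_mul_eq_mul_div, div_eq_iff m2, Nat.cast_pow, hz, mul_comm]
  intro i
  rw [Fin.forall_fin_two]
  simp only [mul_ent, inv00, inv01, inv10, inv11]
  obtain ⟨z, hz⟩ := key i 1
  obtain ⟨z', hz'⟩ := key i 0
  exact ⟨⟨z, by rw [← hz]; ring⟩, -z', by push_cast; rw [← hz']; ring⟩

end Pool.Agent.Lib.MP_9e6b46_al.LU
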