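import Pool.Agent.Lib.MP_9e6b46_al.LU.Word
import Pool.Agent.Lib.MP_9e6b46_al.LU.Bins

/-! The counting inequality and its iteration. -/

set_option autoImplicit false

namespace Pool.Agent.Lib.MP_9e6b46_al.LU

open Finset
open FreeGroup (mk)

variable {φ : FG →* SL} {W : ℕ → Finset FG}

/-- `W n` is the set of words with bounded image and denominator `n`. -/
def IsW (φ : FG →* SL) (W : ℕ → Finset FG) : Prop :=
  ∀ n : ℕ, 0 < n → ∀ w, w ∈ W n ↔ Bd 3 (φ w) ∧ Den n (φ w)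

/-- The convolution sum over factorisations of `n ^ 2`. -/
def conv (W : ℕ → Finset FG) (n : ℕ) : ℕ := ∑ m ∈ (n ^ 2).divisors, #(W m) * #(W (n ^ 2 / m))

/-- The element attached to a marked word and a positive word. -/
def pt (x : FG × List Lt) : FG := x.1 * mk x.2

theorem off_diag (hW : IsW φ W) {n : ℕ} (hn : 0 < n) (S : Finset FG) (Λ : Finset (List Lt))
    (hS : ∀ g ∈ S, Marked g ∧ Den n (φ g)) (hS2 : ∀ g ∈ S, ∀ g' ∈ S, Bd 3 (φ (g * g'⁻¹)))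
    (hΛ : ∀ L ∈ Λ, Pos L ∧ L.head? = some (0, true) ∧ Den 1 (φ (mk L)))
    (T : Finset ((FG × List Lt) × (FG × List Lt)))
    (hT : ∀ p ∈ T, (p.1.1 ∈ S ∧ p.1.2 ∈ Λ) ∧ (p.2.1 ∈ S ∧ p.2.2 ∈ Λ) ∧
      Bd 3 (φ ((pt p.1)⁻¹ * pt p.2)) ∧ p.1.1 ≠ p.2.1 ∧ p.1.1.norm ≤ p.2.1.norm) :
    #T ≤ conv W n := by
  classical
  let H : (FG × List Lt) × (FG × List Lt) → FG := fun p => (pt p.1)⁻¹ * pt p.2
  have hden : ∀ x : FG × List Lt, x.1 ∈ S ∧ x.2 ∈ Λ → Den n (φ (pt x)) := fun x hx => by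
    have := (hS _ hx.1).2.mul (hΛ _ hx.2).2.2
    rwa [mul_one, ← map_mul] at this
  have huniq : ∀ p ∈ T, ∀ p' ∈ T, H p = H p' → p.2.2 = p'.2.2 := fun p hp p' hp' e => by
    obtain ⟨a1, a2, -, a4, a5⟩ := hT p hp
    obtain ⟨b1, b2, -, b4, b5⟩ := hT p' hp'
    refine (((hS _ a2.1).1.inv_mul a4 a5).pos_inv (hΛ _ a1.2).1).unique
      (((hS _ b2.1).1.inv_mul b4 b5).pos_inv (hΛ _ b1.2).1) (hΛ _ a2.2).1 (hΛ _ b2.2).1
      (hΛ _ a2.2).2.1 (hΛ _ b2.2).2.1 ?_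
    simpa only [H, pt, mul_inv_rev, mul_assoc] using e
  refine (card_le_card_of_injOn
    (t := (n ^ 2).divisors.biUnion fun m => W m ×ˢ W (n ^ 2 / m))
    (fun p => (H p, p.2.1 * (Function.invFunOn H T (H p)).2.1⁻¹)) (fun p hp => ?_)
    (fun p hp p' hp' e => ?_)).trans (card_biUnion_le.trans_eq ?_)
  · have h0 := Function.invFunOn_mem (f := H) (s := T) ⟨p, hp, rfl⟩
    have e0 := Function.invFunOn_eq (f := H) (s := T) ⟨p, hp, rfl⟩
    dsimp only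
    generalize Function.invFunOn H T (H p) = p₀ at h0 e0 ⊢
    have eL := huniq p hp p₀ h0 e0.symm
    obtain ⟨a1, a2, a3, -⟩ := hT p hp
    obtain ⟨b1, b2, -⟩ := hT p₀ h0
    have c1 : pt p.1 * H p = pt p.2 := mul_inv_cancel_left _ _
    have c2 : pt p₀.1 * H p = pt p₀.2 := by rw [← e0]; exact mul_inv_cancel_left _ _
    obtain ⟨d1, d2, d3⟩ := four_point (h := φ (H p)) hn (hden _ a1) (hden _ b1)
      (by rw [← map_mul, c1]; exact hden _ a2) (by rw [← map_mul, c2]; exact hden _ b2)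
    have c3 : pt p.1 * (pt p₀.1)⁻¹ = p.2.1 * p₀.2.1⁻¹ := by
      rw [eq_mul_inv_of_mul_eq c1, eq_mul_inv_of_mul_eq c2, pt, pt, eL]
      group
    rw [← map_inv, ← map_mul, c3] at d3
    have n0 : 0 < n ^ 2 := pow_pos hn 2
    have m0 := Nat.pos_of_dvd_of_pos d1 n0
    simp only [coe_biUnion, Set.mem_iUnion, mem_coe, mem_product]
    exact ⟨_, Nat.mem_divisors.2 ⟨d1, n0.ne'⟩, (hW _ m0 _).2 ⟨a3, d2⟩,
      (hW _ (Nat.div_pos (Nat.le_of_dvd n0 d1) m0) _).2 ⟨hS2 _ a2.1 _ b2.1, d3⟩⟩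
  · obtain ⟨e1, e2⟩ := Prod.mk.inj e
    rw [e1, mul_left_inj] at e2
    have e3 : p.2 = p'.2 := Prod.ext e2 (huniq p hp p' hp' e1)
    obtain ⟨a1, -⟩ := hT p hp
    obtain ⟨b1, -⟩ := hT p' hp'
    simp only [H, e3, mul_left_inj, inv_inj, pt] at e1
    have e4 := (hS _ a1.1).1.unique (hS _ b1.1).1 (hΛ _ a1.2).1 (hΛ _ b1.2).1
      (hΛ _ a1.2).2.1 (hΛ _ b1.2).2.1 e1
    rw [e4, mul_left_inj] at e1
    exact Prod.ext (Prod.ext e1 e4) e3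
  · simp only [conv, card_product]

theorem core (hW : IsW φ W) {n : ℕ} (hn : 0 < n) (σ τ : ℕ) (S : Finset FG)
    (Λ : Finset (List Lt)) (hS : ∀ g ∈ S, Marked g ∧ Den n (φ g))
    (hS1 : ∀ g ∈ S, Bd (2 ^ σ) (φ g)) (hS2 : ∀ g ∈ S, ∀ g' ∈ S, Bd 3 (φ (g * g'⁻¹)))
    (hΛ : ∀ L ∈ Λ, Pos L ∧ L.head? = some (0, true) ∧ Den 1 (φ (mk L)))
    (hΛ1 : ∀ L ∈ Λ, Bd (2 ^ τ) (φ (mk L))) :
    (#S * #Λ) ^ 2 ≤ nb (σ + τ + 1) * (#S * #Λ * #(W 1) + 2 * conv W n) := by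
  classical
  rw [← card_product]
  refine (many_pairs (S ×ˢ Λ) (fun x => φ (pt x)) (σ + τ + 1) fun x hx => ?_).trans
    (Nat.mul_le_mul_left _ ?_)
  · rw [mem_product] at hx
    rw [pt, map_mul]
    exact ((hS1 _ hx.1).mul (hΛ1 _ hx.2)).mono (by ring_nf; rfl)
  simp only [← map_inv, ← map_mul]
  generalize hT : ({p ∈ (S ×ˢ Λ) ×ˢ S ×ˢ Λ | Bd 3 (φ ((pt p.1)⁻¹ * pt p.2))} : Finset _) = T
  have hm : ∀ p ∈ T, (p.1.1 ∈ S ∧ p.1.2 ∈ Λ) ∧ (p.2.1 ∈ S ∧ p.2.2 ∈ Λ) ∧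
      Bd 3 (φ ((pt p.1)⁻¹ * pt p.2)) := fun p hp => by
    rw [← hT] at hp
    simpa only [mem_filter, mem_product, and_assoc] using hp
  have h0 : #{p ∈ T | p.1.1 = p.2.1} ≤ #(S ×ˢ Λ) * #(W 1) := by
    rw [← card_product]
    refine card_le_card_of_injOn (fun p => (p.1, (mk p.1.2)⁻¹ * mk p.2.2)) (fun p hp => ?_)
      (fun p hp p' hp' e => ?_)
    · obtain ⟨hp, e⟩ := mem_filter.1 hp
      obtain ⟨a1, a2, a3⟩ := hm p hp
      simp only [coe_product, Set.mem_prod, mem_coe]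
      refine ⟨a1, (hW 1 one_pos _).2 ⟨?_, ?_⟩⟩
      · simpa only [pt, e, mul_inv_rev, mul_assoc, inv_mul_cancel_left] using a3
      · have := (hΛ _ a1.2).2.2.inv.mul (hΛ _ a2.2).2.2
        rwa [mul_one, ← map_inv, ← map_mul, ← Nat.cast_one] at this
    · obtain ⟨hp, e1⟩ := mem_filter.1 hp
      obtain ⟨hp', e2⟩ := mem_filter.1 hp'
      obtain ⟨e3, e4⟩ := Prod.mk.inj e
      rw [e3, mul_right_inj] at e4
      exact Prod.ext e3 (Prod.ext (by rw [← e1, ← e2, e3])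
        ((hΛ _ (hm p hp).2.1.2).1.mk_inj (hΛ _ (hm p' hp').2.1.2).1 e4))
  have h1 : #{p ∈ T | p.1.1 ≠ p.2.1 ∧ p.1.1.norm ≤ p.2.1.norm} ≤ conv W n :=
    off_diag hW hn S Λ hS hS2 hΛ _ fun p hp => by
      obtain ⟨hp, e⟩ := mem_filter.1 hp
      exact ⟨(hm p hp).1, (hm p hp).2.1, (hm p hp).2.2, e⟩
  have h2 : #{p ∈ T | p.2.1 ≠ p.1.1 ∧ p.2.1.norm ≤ p.1.1.norm} ≤ conv W n := by
    rw [← card_image_of_injective _ Prod.swap_injective]
    refine off_diag hW hn S Λ hS hS2 hΛ _ fun p' hp' => ?_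
    obtain ⟨p, hp, rfl⟩ := mem_image.1 hp'
    obtain ⟨hp, e⟩ := mem_filter.1 hp
    refine ⟨(hm p hp).2.1, (hm p hp).1, ?_, e⟩
    have := (hm p hp).2.2.inv
    rwa [← map_inv, mul_inv_rev, inv_inv] at this
  have h3 : T ⊆ {p ∈ T | p.1.1 = p.2.1} ∪ ({p ∈ T | p.1.1 ≠ p.2.1 ∧ p.1.1.norm ≤ p.2.1.norm} ∪
      {p ∈ T | p.2.1 ≠ p.1.1 ∧ p.2.1.norm ≤ p.1.1.norm}) := fun p hp => by
    simp only [mem_union, mem_filter, hp, true_and]
    by_cases e : p.1.1 = p.2.1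
    · exact Or.inl e
    · exact Or.inr ((le_total _ _).imp (fun h => ⟨e, h⟩) fun h => ⟨Ne.symm e, h⟩)
  have h4 := (card_le_card h3).trans ((card_union_le _ _).trans
    (Nat.add_le_add_left (card_union_le _ _) _))
  omega

theorem num_step {τ c₀ N S R : ℕ}
    (h : ∀ j, ∃ L, (4 * 2 ^ τ) ^ j ≤ L ∧
      (S * L) ^ 2 ≤ c₀ * (2 * 4 ^ τ) ^ j * (S * L * N + 2 * R)) :
    S ^ (2 * (τ + 1) + 1) ≤ ((2 * c₀ * N + 1) ^ (2 * (τ + 1) + 1) +
      (2 * c₀ * N + 1) * (2 * 4 ^ τ) * (4 * c₀) ^ (τ + 1)) * (R + 1) ^ (τ + 1) := by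
  obtain ⟨c, hc⟩ : ∃ c, c = 2 * c₀ * N + 1 := ⟨_, rfl⟩
  obtain ⟨Q, hQ⟩ : ∃ Q, Q = 2 * 4 ^ τ := ⟨_, rfl⟩
  rw [← hc]
  have c0 : 0 < c := by omega
  have r1 : 1 ≤ (R + 1) ^ (τ + 1) := Nat.one_le_pow _ _ (by omega)
  rcases lt_or_ge S c with hS | hS
  · calc S ^ (2 * (τ + 1) + 1) ≤ c ^ (2 * (τ + 1) + 1) * 1 := by rw [mul_one]; gcongr
      _ ≤ _ := by gcongr; exact Nat.le_add_right _ _
  have Q1 : 1 < Q := by
    have : 1 ≤ 4 ^ τ := Nat.one_le_pow _ _ (by norm_num)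
    omega
  have a1 := Nat.pow_log_le_self Q (Nat.div_pos hS c0).ne'
  have a2 := Nat.lt_pow_succ_log_self Q1 (S / c)
  generalize Nat.log Q (S / c) = j at a1 a2
  rw [Nat.le_div_iff_mul_le c0] at a1
  rw [Nat.div_lt_iff_lt_mul c0, pow_succ] at a2
  obtain ⟨L, hL, hK⟩ := h j
  have L1 : 1 ≤ L := le_trans (Nat.one_le_pow _ _ (by positivity)) hL
  have L2 : 8 ^ j * Q ^ j ≤ L ^ 2 := by
    refine le_trans (le_of_eq ?_) (Nat.pow_le_pow_left hL 2)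
    rw [← mul_pow, ← pow_mul, mul_comm j 2, pow_mul, hQ, mul_pow 4, ← pow_mul, mul_comm τ 2,
      pow_mul]
    congr 1
    ring
  rw [← hQ] at hK ⊢
  have P0 : 0 < Q ^ j := by positivity
  have Q8 : Q ^ j ≤ (8 ^ j) ^ (τ + 1) := by
    rw [← pow_mul, mul_comm j, pow_mul, hQ]
    gcongr
    rw [pow_succ, mul_comm]
    gcongr <;> norm_num
  generalize Q ^ j = P at *
  have b1 : 2 * (c₀ * P * (S * L * N)) ≤ (S * L) ^ 2 :=
    calc 2 * (c₀ * P * (S * L * N)) = P * (2 * c₀ * N) * (S * L) := by ring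
      _ ≤ P * c * (S * L) := by gcongr; omega
      _ ≤ S * L * (S * L) := Nat.mul_le_mul_right _ (a1.trans (Nat.le_mul_of_pos_right _ L1))
      _ = _ := by ring
  have b2 : S ^ 2 * 8 ^ j ≤ 4 * c₀ * R := by
    refine Nat.le_of_mul_le_mul_right ?_ P0
    calc S ^ 2 * 8 ^ j * P = S ^ 2 * (8 ^ j * P) := by ring
      _ ≤ S ^ 2 * L ^ 2 := by gcongr
      _ = (S * L) ^ 2 := by ring
      _ ≤ 4 * c₀ * R * P := by nlinarith
  calc S ^ (2 * (τ + 1) + 1) = S * (S ^ 2) ^ (τ + 1) := by ring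
    _ ≤ ((8 ^ j) ^ (τ + 1) * Q * c) * (S ^ 2) ^ (τ + 1) := by
      gcongr
      exact a2.le.trans (by gcongr)
    _ = c * Q * (S ^ 2 * 8 ^ j) ^ (τ + 1) := by rw [mul_pow]; ring
    _ ≤ c * Q * (4 * c₀ * (R + 1)) ^ (τ + 1) :=
      Nat.mul_le_mul_left _ (Nat.pow_le_pow_left (b2.trans (by gcongr; omega)) _)
    _ = c * Q * (4 * c₀) ^ (τ + 1) * (R + 1) ^ (τ + 1) := by rw [mul_pow]; ring
    _ ≤ _ := by gcongr; exact Nat.le_add_left _ _

theorem divisor_bound (k : ℕ) : ∃ C : ℕ, ∀ n : ℕ, n ≠ 0 → #n.divisors ^ k ≤ C * n := by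
  set C0 := k.factorial * 2 ^ k with hC0
  have hC : 1 ≤ C0 := Nat.one_le_iff_ne_zero.2 (by positivity)
  refine ⟨C0 ^ 2 ^ k, fun n hn => ?_⟩
  rw [Nat.card_divisors hn, ← prod_pow]
  calc ∏ p ∈ n.primeFactors, (n.factorization p + 1) ^ k
      ≤ ∏ p ∈ n.primeFactors, (if p < 2 ^ k then C0 else 1) * p ^ n.factorization p := by
        refine prod_le_prod' fun p hp => ?_
        have h2 := (Nat.prime_of_mem_primeFactors hp).two_le
        generalize n.factorization p = a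
        split_ifs with h
        · calc (a + 1) ^ k ≤ (a + 1).ascFactorial k := Nat.pow_succ_le_ascFactorial _ _
            _ = k.factorial * (a + k).choose k := Nat.ascFactorial_eq_factorial_mul_choose _ _
            _ ≤ k.factorial * 2 ^ (a + k) := by gcongr; exact Nat.choose_le_two_pow _ _
            _ = C0 * 2 ^ a := by rw [hC0]; ring
            _ ≤ C0 * p ^ a := by gcongr
        · calc (a + 1) ^ k ≤ (2 ^ a) ^ k := by gcongr; exact Nat.lt_two_pow_self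
            _ = (2 ^ k) ^ a := by rw [← pow_mul, ← pow_mul, mul_comm]
            _ ≤ 1 * p ^ a := by rw [one_mul]; gcongr; omega
    _ ≤ C0 ^ 2 ^ k * n := by
        rw [prod_mul_distrib]
        gcongr
        · rw [prod_ite, prod_const_one, mul_one, prod_const]
          refine Nat.pow_le_pow_right hC ?_
          calc _ ≤ #(range (2 ^ k)) := card_le_card fun p hp => mem_range.2 (mem_filter.1 hp).2
            _ = _ := card_range _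
        · exact (Nat.prod_factorization_pow_eq_self hn).le

/-- The growth exponent of `#(W n)` is at most `a / b`. -/
def Grow (W : ℕ → Finset FG) (a b : ℕ) : Prop := ∃ C : ℕ, ∀ n : ℕ, 0 < n → #(W n) ^ b ≤ C * n ^ a

theorem Grow.step {κ s c a b : ℕ} (hs : 0 < s) (ha : 0 < a)
    (h : ∀ n, 0 < n → #(W n) ^ (2 * κ + 1) ≤ c * (conv W (n * s) + 1) ^ κ) (hG : Grow W a b) :
    Grow W ((8 * κ + 2) * a) ((8 * κ + 4) * b) := by
  obtain ⟨C, hC⟩ := hG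
  obtain ⟨D, hD⟩ := divisor_bound (b * (4 * κ))
  refine ⟨c ^ (4 * b) * D * (2 ^ (b - 1) * (C ^ 2 + 1)) ^ (4 * κ) * s ^ ((8 * κ + 2) * a),
    fun n hn => ?_⟩
  have h1 := h n hn
  rw [mul_assoc _ (s ^ _), ← mul_pow, mul_comm s n]
  have n0 : 0 < n * s := Nat.mul_pos hn hs
  generalize n * s = k at *
  have k0 : 0 < k ^ 2 := pow_pos n0 2
  have hne : (k ^ 2).divisors.Nonempty := ⟨1, Nat.one_mem_divisors.2 k0.ne'⟩
  obtain ⟨m, hm, hmax⟩ := exists_max_image _ (fun m => #(W m) * #(W (k ^ 2 / m))) hne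
  have d1 := Nat.dvd_of_mem_divisors hm
  have m0 := Nat.pos_of_dvd_of_pos d1 k0
  have h2 : (#(W m) * #(W (k ^ 2 / m))) ^ b ≤ C ^ 2 * (k ^ 2) ^ a :=
    calc _ ≤ (C * m ^ a) * (C * (k ^ 2 / m) ^ a) := by
          rw [mul_pow]
          exact Nat.mul_le_mul (hC _ m0) (hC _ (Nat.div_pos (Nat.le_of_dvd k0 d1) m0))
      _ = C ^ 2 * (m * (k ^ 2 / m)) ^ a := by rw [mul_pow]; ring
      _ = _ := by rw [Nat.mul_div_cancel' d1]
  have h3 : conv W k ≤ #(k ^ 2).divisors * (#(W m) * #(W (k ^ 2 / m))) :=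
    sum_le_card_nsmul _ _ _ hmax
  have h4 := hD _ k0.ne'
  have h5 := hne.card_pos
  generalize #(W m) * #(W (k ^ 2 / m)) = M at *
  generalize #(k ^ 2).divisors = d at *
  have h6 : (M + 1) ^ b ≤ 2 ^ (b - 1) * (C ^ 2 + 1) * (k ^ 2) ^ a := by
    refine (add_pow_le (Nat.zero_le _) (Nat.zero_le _) b).trans ?_
    rw [mul_assoc, add_mul, one_pow, one_mul]
    gcongr
    exact Nat.one_le_pow _ _ k0
  calc #(W n) ^ ((8 * κ + 4) * b) = (#(W n) ^ (2 * κ + 1)) ^ (4 * b) := by ring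
    _ ≤ (c * (d * (M + 1)) ^ κ) ^ (4 * b) := by
      gcongr
      refine h1.trans ?_
      gcongr
      nlinarith
    _ = c ^ (4 * b) * d ^ (b * (4 * κ)) * ((M + 1) ^ b) ^ (4 * κ) := by
      simp only [mul_pow, ← pow_mul]; ring
    _ ≤ c ^ (4 * b) * (D * k ^ 2) * (2 ^ (b - 1) * (C ^ 2 + 1) * (k ^ 2) ^ a) ^ (4 * κ) := by
      gcongr
    _ = c ^ (4 * b) * D * (2 ^ (b - 1) * (C ^ 2 + 1)) ^ (4 * κ) * k ^ (8 * κ * a + 2 * 1) := by
      rw [mul_pow _ ((k ^ 2) ^ a)]; ring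
    _ ≤ _ := Nat.mul_le_mul_left _ (Nat.pow_le_pow_right n0 (by nlinarith))

theorem bern (x i : ℕ) : x ^ i * (x + 2 * i) ≤ x * (x + 2) ^ i := by
  induction i with
  | zero => simp
  | succ i ih =>
    calc x ^ (i + 1) * (x + 2 * (i + 1)) ≤ x ^ i * (x + 2 * i) * (x + 2) := by
          rw [pow_succ, mul_assoc, mul_assoc]
          exact Nat.mul_le_mul_left _ (by nlinarith)
      _ ≤ x * (x + 2) ^ i * (x + 2) := by gcongr
      _ = _ := by ring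

theorem no_growth {κ s c c' D : ℕ} (hs : 0 < s) (hD : 0 < D) (h0 : Grow W 4 1)
    (h : ∀ n, 0 < n → #(W n) ^ (2 * κ + 1) ≤ c * (conv W (n * s) + 1) ^ κ)
    (hg : ∀ j, 2 ^ j ≤ c' * #(W (D ^ j))) : False := by
  have h1 : ∀ i, Grow W ((8 * κ + 2) ^ i * 4) ((8 * κ + 4) ^ i) := fun i => by
    induction i with
    | zero => simpa using h0
    | succ i ih =>
      rw [pow_succ', pow_succ', mul_assoc]
      exact ih.step hs (by positivity) h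
  obtain ⟨x, hx⟩ : ∃ x, x = 8 * κ + 2 := ⟨_, rfl⟩
  have x0 : 0 < x := by omega
  obtain ⟨C, hC⟩ := h1 (x * (2 * D))
  have h2 := bern x (x * (2 * D))
  rw [show 8 * κ + 4 = x + 2 by omega, ← hx] at hC
  have h3 : 0 < x ^ (x * (2 * D)) := by positivity
  generalize x ^ (x * (2 * D)) = a at *
  generalize (x + 2) ^ (x * (2 * D)) = b at *
  have h4 : 1 + D * (a * 4) ≤ b := by
    refine Nat.le_of_mul_le_mul_left (le_trans ?_ h2) x0
    nlinarith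
  obtain ⟨j, hj⟩ : ∃ j, j = c' ^ b * C := ⟨_, rfl⟩
  have h5 : 2 ^ j * (D ^ j) ^ (a * 4) ≤ j * (D ^ j) ^ (a * 4) :=
    calc 2 ^ j * (D ^ j) ^ (a * 4) ≤ 2 ^ j * ((2 ^ D) ^ j) ^ (a * 4) := by
          gcongr; exact Nat.lt_two_pow_self.le
      _ = (2 ^ j) ^ (1 + D * (a * 4)) := by ring
      _ ≤ (2 ^ j) ^ b := Nat.pow_le_pow_right (by positivity) h4
      _ ≤ (c' * #(W (D ^ j))) ^ b := by gcongr; exact hg j
      _ ≤ c' ^ b * (C * (D ^ j) ^ (a * 4)) := by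
        rw [mul_pow]; gcongr; exact hC _ (by positivity)
      _ = _ := by rw [← mul_assoc, ← hj]
  exact absurd (Nat.le_of_mul_le_mul_right h5 (by positivity)) Nat.lt_two_pow_self.not_ge

end Pool.Agent.Lib.MP_9e6b46_al.LU
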