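import Pool.Agent.Lib.MP_9e6b46_al.Defs
import Pool.Agent.Lib.MP_9e6b46_al.LU.Core

/-! Every rational number in `(-4, 4)` is non-free. -/

set_option autoImplicit false

namespace Pool.Agent.Lib.MP_9e6b46_al.LU

open Finset
open FreeGroup (mk)

variable {φ : FG →* SL} {W : ℕ → Finset FG}

theorem exists_W (hφ : Function.Injective φ) : ∃ W, IsW φ W ∧ Grow W 4 1 := by
  classical
  have key : ∀ n : ℕ, ∃ Wn : Finset FG, 0 < n →
      (∀ w, w ∈ Wn ↔ Bd 3 (φ w) ∧ Den n (φ w)) ∧ #Wn ≤ 7 ^ 4 * n ^ 4 := fun n => by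
    rcases n.eq_zero_or_pos with rfl | hn
    · exact ⟨∅, fun h => absurd h (lt_irrefl _)⟩
    have n0 : (0 : ℝ) < n := by exact_mod_cast hn
    let f : FG → Fin 2 × Fin 2 → ℤ := fun w p => ⌊(n : ℝ) * (φ w).1 p.1 p.2⌋
    let B := Fintype.piFinset fun _ : Fin 2 × Fin 2 => Icc (-(3 * n : ℤ)) (3 * n)
    have hm : Set.MapsTo f {w | Bd 3 (φ w) ∧ Den n (φ w)} B := fun w hw => by
      simp only [B, mem_coe, Fintype.mem_piFinset, mem_Icc, f]
      intro p
      obtain ⟨h1, h2⟩ := abs_le.1 (hw.1 p.1 p.2)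
      rw [Int.le_floor, Int.floor_le_iff]
      push_cast
      constructor <;> nlinarith
    have hi : Set.InjOn f {w | Bd 3 (φ w) ∧ Den n (φ w)} := fun w hw w' hw' e => by
      refine hφ (Subtype.ext (Matrix.ext fun i j => mul_left_cancel₀ n0.ne' ?_))
      have := congrFun e (i, j)
      obtain ⟨z, hz⟩ := hw.2 i j
      obtain ⟨z', hz'⟩ := hw'.2 i j
      simp only [f, hz, hz', Int.floor_intCast] at this
      rw [hz, hz', this]
    have hfin := Set.Finite.of_injOn hm hi B.finite_toSet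
    refine ⟨hfin.toFinset, fun _ => ⟨fun w => hfin.mem_toFinset, ?_⟩⟩
    refine (card_le_card_of_injOn (t := B) f (by simpa using hm) (by simpa using hi)).trans ?_
    rw [Fintype.card_piFinset, prod_const, Int.card_Icc, ← mul_pow]
    exact Nat.pow_le_pow_left (by omega) 4
  choose W hW using key
  exact ⟨W, fun n hn => (hW n hn).1, 7 ^ 4, fun n hn => by simpa using (hW n hn).2⟩

theorem pow_family (φ : FG →* SL) (U V : List Lt) (F : Finset (List ℕ)) {l τ : ℕ} {T d : ℝ}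
    (hl : ∀ x ∈ F, x.length = l) (hT : 2 * T ≤ 2 ^ τ)
    (hF : ∀ x ∈ F, Bd T (φ (mk (enc U V x))) ∧ Den d (φ (mk (enc U V x)))) (j : ℕ) :
    ∃ G : Finset (List ℕ), #G = #F ^ j ∧
      ∀ x ∈ G, Bd (2 ^ (τ * j)) (φ (mk (enc U V x))) ∧ Den (d ^ j) (φ (mk (enc U V x))) := by
  induction j with
  | zero =>
    refine ⟨{[]}, rfl, fun x hx => ?_⟩
    rw [mem_singleton.1 hx, enc, ← FreeGroup.one_eq_mk, map_one, mul_zero, pow_zero, pow_zero]
    exact ⟨bd_one, den_one⟩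
  | succ j ih =>
    obtain ⟨G, h1, h2⟩ := ih
    refine ⟨(F ×ˢ G).image fun p => p.1 ++ p.2, ?_, fun x hx => ?_⟩
    · rw [card_image_of_injOn, card_product, h1, pow_succ']
      intro p hp p' hp' e
      obtain ⟨e1, e2⟩ := List.append_inj e
        ((hl _ (mem_product.1 hp).1).trans (hl _ (mem_product.1 hp').1).symm)
      exact Prod.ext e1 e2
    · obtain ⟨p, hp, rfl⟩ := mem_image.1 hx
      obtain ⟨a1, a2⟩ := mem_product.1 hp
      rw [enc_append, ← FreeGroup.mul_mk, map_mul, pow_succ' d, mul_add, mul_one, pow_add,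
        mul_comm]
      exact ⟨((hF _ a1).1.mul (h2 _ a2).1).mono (by gcongr), (hF _ a1).2.mul (h2 _ a2).2⟩

theorem pair_family (k i : ℕ) (hi : i ≤ k) : ∃ I : Finset (ℕ × ℕ), #I = i * 2 ^ k ∧
    ∀ p ∈ I, p.1 < 2 ^ i ∧ (p.1 + 1) * (p.2 + 1) ≤ 2 ^ (k + 1) := by
  induction i with
  | zero => exact ⟨∅, by simp, by simp⟩
  | succ i ih =>
    obtain ⟨I, h1, h2⟩ := ih (by omega)
    obtain ⟨m, rfl⟩ : ∃ m, k = i + m := ⟨k - i, by omega⟩
    refine ⟨I ∪ Ico (2 ^ i) (2 ^ (i + 1)) ×ˢ range (2 ^ m), ?_, fun p hp => ?_⟩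
    · rw [card_union_of_disjoint, h1, card_product, Nat.card_Ico, card_range,
        show 2 ^ (i + 1) - 2 ^ i = 2 ^ i by rw [pow_succ]; omega]
      · ring
      · exact disjoint_left.2 fun p hp hp' =>
          absurd (h2 p hp).1 (mem_Ico.1 (mem_product.1 hp').1).1.not_gt
    · rcases mem_union.1 hp with hp | hp
      · exact ⟨(h2 p hp).1.trans (Nat.pow_lt_pow_right one_lt_two i.lt_succ_self), (h2 p hp).2⟩
      · simp only [mem_product, mem_Ico, mem_range] at hp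
        exact ⟨hp.1.2, (Nat.mul_le_mul hp.1.2 hp.2).trans_eq (by ring)⟩

theorem matA_pow (n : ℕ) : (matA ^ n).1 = !![1, (n : ℝ); 0, 1] := by
  induction n with
  | zero => ext i j; fin_cases i <;> fin_cases j <;> simp
  | succ n ih =>
    rw [pow_succ, Matrix.SpecialLinearGroup.coe_mul, ih]
    ext i j
    fin_cases i <;> fin_cases j <;> simp [matA, add_comm]

theorem matB_mul (q q' : ℝ) : matB q * matB q' = matB (q + q') := by
  refine Subtype.ext ?_
  ext i j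
  fin_cases i <;> fin_cases j <;> simp [matB]

theorem matB_zero : matB 0 = 1 := by
  refine Subtype.ext ?_
  ext i j
  fin_cases i <;> fin_cases j <;> simp [matB]

theorem matB_pow (q : ℝ) (n : ℕ) : matB q ^ n = matB (n * q) := by
  induction n with
  | zero => simp [matB_zero]
  | succ n ih => rw [pow_succ, ih, matB_mul]; congr 1; push_cast; ring

theorem matB_neg (q : ℝ) : matB (-q) = (matB q)⁻¹ := by
  rw [eq_inv_iff_mul_eq_one, matB_mul, neg_add_cancel, matB_zero]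

theorem bd_matA_pow (n : ℕ) : Bd (n + 1) (matA ^ n) := by
  have : (0 : ℝ) ≤ n := n.cast_nonneg
  unfold Bd
  rw [matA_pow]
  simp [Fin.forall_fin_two, add_nonneg]

theorem bd_matA : Bd 1 matA := by
  simp [Bd, Fin.forall_fin_two, matA]

theorem den_matA : Den 1 matA := by
  simp only [Den, Fin.forall_fin_two, matA]
  exact ⟨⟨⟨1, by simp⟩, 1, by simp⟩, ⟨0, by simp⟩, 1, by simp⟩

theorem bd_matB {q T : ℝ} (h : |q| ≤ T) (h1 : 1 ≤ T) : Bd T (matB q) := by
  simp [Bd, Fin.forall_fin_two, matB, h, h1, zero_le_one.trans h1]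

theorem den_matB {q : ℝ} {s r : ℤ} (h : s * q = r) : Den s (matB q) := by
  simp only [Den, Fin.forall_fin_two, matB]
  exact ⟨⟨⟨s, by simp⟩, 0, by simp⟩, ⟨r, by simpa using h⟩, s, by simp⟩

theorem elliptic {q : ℝ} (h1 : -4 < q) (h2 : q < 0) : ∃ T, ∀ n, Bd T ((matA * matB q) ^ n) := by
  have key : ∀ (n : ℕ) (j : Fin 2), -q * ((matA * matB q) ^ n).1 0 j ^ 2 +
      q * ((matA * matB q) ^ n).1 0 j * ((matA * matB q) ^ n).1 1 j +
      ((matA * matB q) ^ n).1 1 j ^ 2 ≤ 4 := fun n j => by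
    induction n with
    | zero =>
      fin_cases j
      · simp
        linarith
      · simp
    | succ n ih =>
      rw [pow_succ' (matA * matB q), mul_ent (matA * matB q), mul_ent (matA * matB q)]
      generalize ((matA * matB q) ^ n).1 0 j = x at ih ⊢
      generalize ((matA * matB q) ^ n).1 1 j = y at ih ⊢
      refine le_of_eq_of_le ?_ ih
      simp [mul_ent, matA, matB]
      ring
  have hd : 0 < -q - q ^ 2 / 4 := by nlinarith
  refine ⟨2 * (4 / (-q - q ^ 2 / 4) + 1) + 2, fun n i j => ?_⟩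
  have h := key n j
  have hx : |((matA * matB q) ^ n).1 0 j| ≤ 4 / (-q - q ^ 2 / 4) + 1 := by
    generalize ((matA * matB q) ^ n).1 0 j = x at h ⊢
    generalize ((matA * matB q) ^ n).1 1 j = y at h ⊢
    have : x ^ 2 ≤ 4 / (-q - q ^ 2 / 4) := by
      rw [le_div_iff₀ hd]; nlinarith [sq_nonneg (y + q * x / 2)]
    rw [abs_le]
    constructor <;> nlinarith [sq_nonneg (x + 1), sq_nonneg (x - 1)]
  have h0 := abs_nonneg (((matA * matB q) ^ n).1 0 j)
  fin_cases i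
  · simp only [Fin.zero_eta]
    linarith
  · simp only [Fin.mk_one]
    generalize ((matA * matB q) ^ n).1 0 j = x at h hx h0 ⊢
    generalize ((matA * matB q) ^ n).1 1 j = y at h ⊢
    have h3 : |y + q * x / 2| ≤ 2 :=
      abs_le.2 (abs_le_of_sq_le_sq' (by nlinarith [mul_nonneg hd.le (sq_nonneg x)]) zero_le_two)
    have h4 : |q * x / 2| ≤ 2 * |x| := by
      rw [abs_div, abs_mul, abs_of_neg h2, abs_two]; nlinarith
    have h5 := abs_sub (y + q * x / 2) (q * x / 2)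
    rw [add_sub_cancel_right] at h5
    linarith

theorem mk_replicate (x : Lt) (s : ℕ) : mk (List.replicate s x) = mk [x] ^ s := by
  induction s with
  | zero => rfl
  | succ s ih => rw [pow_succ', ← ih, FreeGroup.mul_mk]; rfl

theorem mk_enc_cons (U V : List Lt) (n : ℕ) (x : List ℕ) :
    mk (enc U V (n :: x)) = mk U ^ n * mk V * mk (enc U V x) := by
  rw [enc, ← FreeGroup.mul_mk, mk_code]

theorem mk_enc_nil (U V : List Lt) : mk (enc U V []) = 1 := rfl

variable {q : ℝ} {s : ℕ} {r : ℤ}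

theorem integral_family (ha : φ (mk [(0, true)]) = matA) (hb : φ (mk [(1, true)]) = matB q)
    (hq : |q| ≤ 4) (hs : 0 < s) (hr : s * q = r) : ∃ τ : ℕ, ∀ j : ℕ, ∃ Λ : Finset (List Lt),
      (4 * 2 ^ τ) ^ j ≤ #Λ ∧ (∀ L ∈ Λ, Pos L ∧ L.head? = some (0, true) ∧ Den 1 (φ (mk L))) ∧
        ∀ L ∈ Λ, Bd (2 ^ (1 + τ * j)) (φ (mk L)) := by
  obtain ⟨e, he⟩ := pow_unbounded_of_one_lt (256 * (s : ℝ) ^ 2) one_lt_two
  obtain ⟨k, hk⟩ : ∃ k, k = 8 * 2 ^ e := ⟨_, rfl⟩
  obtain ⟨I, h1, h2⟩ := pair_family k k le_rfl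
  have s1 : (1 : ℝ) ≤ s := by exact_mod_cast hs
  have hV : φ (mk (List.replicate s (1, true))) = matB r := by
    rw [mk_replicate, map_pow, hb, matB_pow, hr]
  have b1 : Bd (4 * s) (matB r) := bd_matB (by
    rw [← hr, abs_mul, Nat.abs_cast, mul_comm]; gcongr) (by linarith)
  have d1 : Den 1 (matB r) := by simpa using den_matB (s := 1) (r := r) (q := r) (by simp)
  have d2 : ∀ n : ℕ, Den 1 (matA ^ n * matB r) := fun n => by
    simpa using (den_matA.pow n).mul d1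
  refine ⟨e + (k + 1), fun j => ?_⟩
  obtain ⟨G, h3, h4⟩ := pow_family φ [(0, true)] (List.replicate s (1, true))
    (I.image fun p => [p.1, p.2]) (l := 2) (τ := e + (k + 1))
    (T := 128 * s ^ 2 * 2 ^ (k + 1)) (d := 1)
    (fun x hx => by obtain ⟨p, -, rfl⟩ := mem_image.1 hx; rfl)
    (by rw [pow_add 2 e, ← mul_assoc, ← mul_assoc]; gcongr; linarith)
    (fun x hx => by
      obtain ⟨p, hp, rfl⟩ := mem_image.1 hx
      simp only [mk_enc_cons, mk_enc_nil, mul_one, map_mul, map_pow, ha, hV]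
      refine ⟨(((bd_matA_pow p.1).mul b1).mul ((bd_matA_pow p.2).mul b1)).mono ?_,
        by simpa using (d2 p.1).mul (d2 p.2)⟩
      have : ((p.1 : ℝ) + 1) * (p.2 + 1) ≤ 2 ^ (k + 1) := by exact_mod_cast (h2 p hp).2
      calc _ = 128 * (s : ℝ) ^ 2 * (((p.1 : ℝ) + 1) * (p.2 + 1)) := by ring
        _ ≤ _ := by gcongr) j
  obtain ⟨s, rfl⟩ : ∃ s', s = s' + 1 := ⟨s - 1, by omega⟩
  refine ⟨G.image fun x => (0, true) :: enc [(0, true)] (List.replicate (s + 1) (1, true)) x,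
    ?_, fun L hL => ?_, fun L hL => ?_⟩
  · rw [card_image_of_injective, h3, card_image_of_injective, h1]
    · exact Nat.pow_le_pow_left (le_of_eq (by rw [pow_add, pow_add, hk]; ring)) _
    · intro p p' e
      simp only [List.cons.injEq, and_true] at e
      exact Prod.ext e.1 e.2
    · intro x y e
      exact enc_inj (u := (0, true)) (v := (1, true)) (by simp) _ _ x y (List.cons.inj e).2
  · obtain ⟨x, hx, rfl⟩ := mem_image.1 hL
    refine ⟨fun y hy => ?_, rfl, ?_⟩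
    · rcases List.mem_cons.1 hy with rfl | hy
      · rfl
      · exact pos_enc (by simp [Pos]) (by simp [Pos]) x y hy
    · have := den_matA.mul (h4 x hx).2
      rwa [one_pow, mul_one, ← ha, ← map_mul, FreeGroup.mul_mk] at this
  · obtain ⟨x, hx, rfl⟩ := mem_image.1 hL
    have := bd_matA.mul (h4 x hx).1
    rwa [mul_one, ← ha, ← map_mul, FreeGroup.mul_mk, ← pow_succ', add_comm] at this

theorem step_ineq (hW : IsW φ W) (ha : φ (mk [(0, true)]) = matA)
    (hb : φ (mk [(1, true)]) = matB q) (hq : |q| ≤ 4) (hs : 0 < s) (hr : s * q = r) :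
    ∃ κ c : ℕ, ∀ n, 0 < n → #(W n) ^ (2 * κ + 1) ≤ c * (conv W (n * s) + 1) ^ κ := by
  classical
  obtain ⟨τ, hτ⟩ := integral_family ha hb hq hs hr
  have ht : φ (mk [(1, false)]) = (matB q)⁻¹ := by rw [← hb, ← map_inv]; rfl
  have b1 : Bd 4 (matB q)⁻¹ := (bd_matB hq (by norm_num)).inv
  have d1 : Den s (matB q)⁻¹ := (den_matB (s := s) hr).inv
  obtain ⟨c, hc⟩ : ∃ c, ∀ S R : ℕ, (∀ j, ∃ L, (4 * 2 ^ τ) ^ j ≤ L ∧
      (S * L) ^ 2 ≤ nb (8 + τ * j) * (S * L * #(W 1) + 2 * R)) →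
      S ^ (2 * (τ + 1) + 1) ≤ c * (R + 1) ^ (τ + 1) :=
    ⟨_, fun S R h => num_step fun j => (h j).imp fun L hL =>
      ⟨hL.1, hL.2.trans (Nat.mul_le_mul_right _ (nb_le 8 τ j))⟩⟩
  refine ⟨τ + 1, (2 * nb 6) ^ (2 * (τ + 1) + 1) * c, fun n hn => ?_⟩
  have key : ∀ v : FG, Bd 8 (φ v) → Den s (φ v) → ∃ S : ℕ, #{w ∈ W n | Marked (w * v)} ≤ nb 6 * S ∧
      S ^ (2 * (τ + 1) + 1) ≤ c * (conv W (n * s) + 1) ^ (τ + 1) := fun v hv1 hv2 => by
    have hX : ∀ g ∈ ({w ∈ W n | Marked (w * v)} : Finset FG).image (· * v),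
        (Marked g ∧ Den (n * s : ℕ) (φ g)) ∧ Bd (2 ^ 6) (φ g) := fun g hg => by
      obtain ⟨w, hw, rfl⟩ := mem_image.1 hg
      obtain ⟨hw, hm⟩ := mem_filter.1 hw
      obtain ⟨a1, a2⟩ := (hW n hn w).1 hw
      rw [map_mul, Nat.cast_mul]
      exact ⟨⟨hm, a2.mul hv2⟩, (a1.mul hv1).mono (by norm_num)⟩
    obtain ⟨Y, hY, c1, c2⟩ := big_fibre _ (fun g => (φ g)⁻¹) 6 fun g hg => (hX g hg).2.inv
    rw [card_image_of_injective _ (mul_left_injective v)] at c1
    refine ⟨#Y, c1, hc _ _ fun j => ?_⟩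
    obtain ⟨Λ, e1, e2, e3⟩ := hτ j
    refine ⟨#Λ, e1, ?_⟩
    have := core hW (Nat.mul_pos hn hs) 6 (1 + τ * j) Y Λ (fun g hg => (hX g (hY hg)).1)
      (fun g hg => (hX g (hY hg)).2) (fun g hg g' hg' => by simpa using c2 g hg g' hg') e2 e3
    rwa [show 6 + (1 + τ * j) + 1 = 8 + τ * j by ring] at this
  obtain ⟨S₁, a1, a2⟩ := key (mk [(1, false)]) (ht ▸ b1.mono (by norm_num)) (ht ▸ d1)
  have e : φ (mk [(0, true), (1, false)]) = matA * (matB q)⁻¹ := by
    rw [← ha, ← ht, ← map_mul, FreeGroup.mul_mk]; rfl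
  obtain ⟨S₂, a3, a4⟩ := key (mk [(0, true), (1, false)])
    (e ▸ (bd_matA.mul b1).mono (by norm_num)) (e ▸ by simpa using den_matA.mul d1)
  have h3 : W n ⊆ {w ∈ W n | Marked (w * mk [(1, false)])} ∪
      {w ∈ W n | Marked (w * mk [(0, true), (1, false)])} := fun w hw => by
    simpa only [mem_union, mem_filter, hw, true_and] using marked_or w
  have h4 := (card_le_card h3).trans (card_union_le _ _)
  have h5 : #(W n) ≤ 2 * nb 6 * max S₁ S₂ := by
    have := Nat.mul_le_mul_left (nb 6) (le_max_left S₁ S₂)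
    have := Nat.mul_le_mul_left (nb 6) (le_max_right S₁ S₂)
    rw [mul_assoc]
    omega
  refine (Nat.pow_le_pow_left h5 _).trans ?_
  rw [mul_pow _ (max _ _), mul_assoc _ c]
  refine Nat.mul_le_mul_left _ ?_
  rcases max_choice S₁ S₂ with h | h <;> rwa [h]

theorem growth (hW : IsW φ W) (ha : φ (mk [(0, true)]) = matA)
    (hb : φ (mk [(1, true)]) = matB q) (h1 : -4 < q) (h2 : q < 0) (hs : 0 < s) (hr : s * q = r) :
    ∃ c D : ℕ, 0 < D ∧ ∀ j, 2 ^ j ≤ c * #(W (D ^ j)) := by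
  classical
  obtain ⟨T, hT⟩ := elliptic h1 h2
  obtain ⟨τ, hτ⟩ := pow_unbounded_of_one_lt (2 * (2 * T * 4)) (one_lt_two (α := ℝ))
  obtain ⟨M, hM⟩ : ∃ M, M = 2 * (2 * 4 ^ τ) := ⟨_, rfl⟩
  have b1 : Bd 4 (matB q) := bd_matB (abs_le.2 ⟨h1.le, by linarith⟩) (by norm_num)
  have d1 : Den s (matB q) := den_matB (s := s) hr
  have e : φ (mk [(0, true), (1, true)]) = matA * matB q := by
    rw [← ha, ← hb, ← map_mul, FreeGroup.mul_mk]; rfl
  refine ⟨5 * (4 * 0 + 4 * τ + 3) * 4 ^ 0, s ^ M * s ^ M, by positivity, fun j => ?_⟩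
  obtain ⟨G, h3, h4⟩ := pow_family φ [(0, true), (1, true)] [(1, true)]
    ((range M).image fun n => [n]) (l := 1) (τ := τ) (T := 2 * T * 4) (d := s ^ M)
    (fun x hx => by obtain ⟨p, -, rfl⟩ := mem_image.1 hx; rfl) hτ.le
    (fun x hx => by
      obtain ⟨n, hn, rfl⟩ := mem_image.1 hx
      simp only [mk_enc_cons, mk_enc_nil, mul_one, map_mul, map_pow, e, hb]
      refine ⟨(hT n).mul b1, ?_⟩
      obtain ⟨m, rfl⟩ := Nat.exists_eq_add_of_lt (mem_range.1 hn)
      have := (((den_matA.mul d1).pow n).mul d1).mul_int (s ^ m)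
      convert this using 1
      push_cast
      ring) j
  rw [card_image_of_injective _ (fun n m e => by simpa using e), card_range] at h3
  obtain ⟨Y, hY, c1, c2⟩ := big_fibre G _ (τ * j) fun x hx => (h4 x hx).1
  have c3 : #Y ≤ #(W ((s ^ M * s ^ M) ^ j)) := by
    rcases Y.eq_empty_or_nonempty with rfl | ⟨x, hx⟩
    · simp
    refine card_le_card_of_injOn (fun y => (mk (enc [(0, true), (1, true)] [(1, true)] x))⁻¹ *
      mk (enc [(0, true), (1, true)] [(1, true)] y)) (fun y hy => ?_) fun y _ y' _ e => ?_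
    · refine (hW _ (by positivity) _).2 ?_
      rw [map_mul, map_inv]
      refine ⟨c2 x hx y hy, ?_⟩
      push_cast
      rw [mul_pow]
      exact (h4 x (hY hx)).2.inv.mul (h4 y (hY hy)).2
    · exact enc_inj (by simp) _ _ _ _ ((pos_enc (by simp [Pos]) (by simp [Pos]) y).mk_inj
        (pos_enc (by simp [Pos]) (by simp [Pos]) y') (mul_left_cancel e))
  have c4 := nb_le 0 τ j
  rw [zero_add] at c4
  rw [h3, hM, mul_pow] at c1
  refine Nat.le_of_mul_le_mul_right (c1.trans ?_) (by positivity : 0 < (2 * 4 ^ τ) ^ j)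
  rw [mul_right_comm]
  exact Nat.mul_le_mul c4 c3

theorem nonFree_of_neg (x : ℚ) (h1 : -4 < (x : ℝ)) (h2 : (x : ℝ) < 0) : NonFree x := by
  by_contra h
  have hφ : Function.Injective (FreeGroup.lift ![matA, matB x]) :=
    (injective_iff_map_eq_one _).2 fun w hw => by
      by_contra hne
      exact h ⟨w, hne, hw⟩
  obtain ⟨W, hW, h0⟩ := exists_W hφ
  have ha : FreeGroup.lift ![matA, matB x] (mk [(0, true)]) = matA := FreeGroup.lift_apply_of
  have hb : FreeGroup.lift ![matA, matB x] (mk [(1, true)]) = matB x := FreeGroup.lift_apply_of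
  have hr : (x.den : ℝ) * x = x.num := by exact_mod_cast x.den_mul_eq_num
  obtain ⟨κ, c, h3⟩ := step_ineq hW ha hb (abs_le.2 ⟨h1.le, by linarith⟩) x.pos hr
  obtain ⟨c', D, h4, h5⟩ := growth hW ha hb h1 h2 x.pos hr
  exact no_growth x.pos h4 h0 h3 h5

theorem nonFree_neg {q : ℝ} (h : NonFree (-q)) : NonFree q := by
  obtain ⟨w, h1, h2⟩ := h
  let θ : FG →* FG := FreeGroup.lift ![FreeGroup.of 0, (FreeGroup.of 1)⁻¹]
  have e1 : θ.comp θ = MonoidHom.id _ := by
    ext i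
    fin_cases i <;> simp [θ]
  have e2 : (FreeGroup.lift ![matA, matB q]).comp θ = FreeGroup.lift ![matA, matB (-q)] := by
    refine FreeGroup.ext_hom _ _ fun i => ?_
    fin_cases i <;> simp [θ, matB_neg]
  refine ⟨θ w, fun h => h1 ?_, (DFunLike.congr_fun e2 w).trans h2⟩
  have e3 : θ (θ w) = w := DFunLike.congr_fun e1 w
  rw [← e3, h, map_one]

theorem nonFree_rat (x : ℚ) (h1 : -4 < (x : ℝ)) (h2 : (x : ℝ) < 4) : NonFree x := by
  rcases lt_trichotomy (x : ℝ) 0 with h | h | h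
  · exact nonFree_of_neg x h1 h
  · exact ⟨FreeGroup.of 1, FreeGroup.of_ne_one _,
      by rw [FreeGroup.lift_apply_of, h]; exact matB_zero⟩
  · refine nonFree_neg ?_
    have := nonFree_of_neg (-x) (by push_cast; linarith) (by push_cast; linarith)
    rwa [Rat.cast_neg] at this

theorem closure_RQ : closure RQ = Set.Icc (-4) 4 := by
  have e : RQ = Set.Ioo (-4) 4 ∩ Set.range ((↑) : ℚ → ℝ) := by
    ext q
    refine ⟨fun h => ⟨⟨h.2.1, h.2.2.1⟩, h.1⟩, ?_⟩
    rintro ⟨⟨h1, h2⟩, x, rfl⟩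
    exact ⟨⟨x, rfl⟩, h1, h2, nonFree_rat x h1 h2⟩
  rw [e, ← closure_Ioo (by norm_num)]
  exact (closure_mono Set.inter_subset_left).antisymm (closure_minimal
    (Rat.denseRange_cast.open_subset_closure_inter isOpen_Ioo) isClosed_closure)

end Pool.Agent.Lib.MP_9e6b46_al.LU
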