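import Mathlib

/-! Words in the free group on two letters: marked words and unique factorisation. -/

set_option autoImplicit false

namespace Pool.Agent.Lib.MP_9e6b46_al.LU

open FreeGroup

/-- The free group on two letters. -/
abbrev FG : Type := FreeGroup (Fin 2)

/-- Signed letters. -/
abbrev Lt : Type := Fin 2 × Bool

/-- The reduced word of `w` ends with the inverse of the second letter. -/
def Marked (w : FG) : Prop := w.toWord.getLast? = some (1, false)

/-- All letters are positive. -/
def Pos (L : List Lt) : Prop := ∀ x ∈ L, x.2 = true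

theorem Marked.cons {w : FG} (h : Marked w) (l : Lt) :
    Marked (mk [l] * w) ∨ (w = mk [(1, false)] ∧ l = (1, true)) := by
  have e : (mk [l] * w).toWord = reduce (l :: w.toWord) := by
    conv_lhs => rw [← mk_toWord (x := w), mul_mk, toWord_mk]
    rfl
  have hw := mk_toWord (x := w)
  unfold Marked at *
  rw [e, reduce.cons, reduce_toWord]
  rcases hL : w.toWord with _ | ⟨hd, tl⟩
  · rw [hL] at h
    simp at h
  · rw [hL] at h hw
    dsimp only
    split_ifs with hc
    · rcases tl with _ | ⟨x, tl⟩
      · right
        simp only [List.getLast?_singleton, Option.some.injEq] at h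
        subst h
        exact ⟨hw.symm, Prod.ext hc.1 hc.2⟩
      · left
        rwa [List.getLast?_cons_cons] at h
    · left
      rwa [List.getLast?_cons_cons]

theorem mk_cons_mul (l : Lt) (L : List Lt) (w : FG) :
    mk (l :: L) * w = mk [l] * (mk L * w) := by
  rw [← mul_assoc, mul_mk]
  rfl

theorem Marked.short {w : FG} (h : Marked w) :
    ∀ L : List Lt, L.length < norm w → Marked (mk L * w)
  | [], _ => by rwa [← one_eq_mk, one_mul]
  | l :: L, hL => by
    rw [List.length_cons] at hL
    rw [mk_cons_mul]
    refine ((h.short L (by omega)).cons l).resolve_right fun hc => ?_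
    have e : w = (mk L)⁻¹ * mk [(1, false)] := by rw [← hc.1, inv_mul_cancel_left]
    have h1 := norm_mul_le (mk L)⁻¹ (mk [((1 : Fin 2), false)])
    rw [← e, norm_inv_eq] at h1
    have h2 := norm_mk_le (L₁ := L)
    have h3 := norm_mk_le (L₁ := [((1 : Fin 2), false)])
    rw [List.length_singleton] at h3
    omega

theorem Marked.inv_mul {g₁ g₂ : FG} (h : Marked g₂) (hne : g₁ ≠ g₂) (hn : norm g₁ ≤ norm g₂) :
    Marked (g₁⁻¹ * g₂) := by
  have hw := mk_toWord (x := g₁⁻¹)
  have hl : (g₁⁻¹).toWord.length = norm g₁ := norm_inv_eq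
  rcases hL : (g₁⁻¹).toWord with _ | ⟨l, L⟩
  · rw [hL] at hw
    rwa [← hw, ← one_eq_mk, one_mul]
  · rw [hL] at hw hl
    rw [List.length_cons] at hl
    rw [← hw, mk_cons_mul]
    refine ((h.short L (by omega)).cons l).resolve_right fun hc => hne ?_
    rw [← inv_mul_eq_one, ← hw, mk_cons_mul, hc.1, hc.2]
    decide

theorem Marked.neg {w : FG} (h : Marked w) :
    ∀ L : List Lt, (∀ x ∈ L, x.2 = false) → Marked (mk L * w)
  | [], _ => by rwa [← one_eq_mk, one_mul]
  | l :: L, hL => by
    rw [mk_cons_mul]
    refine ((h.neg L fun x hx => hL x (List.mem_cons_of_mem _ hx)).cons l).resolve_right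
      fun hc => ?_
    have := hL l List.mem_cons_self
    rw [hc.2] at this
    simp at this

theorem Marked.pos_inv {w : FG} (h : Marked w) {L : List Lt} (hL : Pos L) :
    Marked ((mk L)⁻¹ * w) := by
  rw [inv_mk]
  refine h.neg _ fun x hx => ?_
  simp only [invRev, List.mem_reverse, List.mem_map] at hx
  obtain ⟨y, hy, rfl⟩ := hx
  simp [hL y hy]

theorem Pos.isReduced {L : List Lt} (h : Pos L) : FreeGroup.IsReduced L :=
  List.Pairwise.isChain
    (List.pairwise_of_forall_mem_list fun a ha b hb _ => (h a ha).trans (h b hb).symm)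

theorem Pos.mk_inj {L L' : List Lt} (h : Pos L) (h' : Pos L') (e : mk L = mk L') : L = L' := by
  have := congrArg toWord e
  rwa [toWord_mk, toWord_mk, h.isReduced.reduce_eq, h'.isReduced.reduce_eq] at this

theorem toWord_mul_mk {w : FG} {L : List Lt} (hL : FreeGroup.IsReduced L)
    (h : ∀ x ∈ w.toWord.getLast?, ∀ y ∈ L.head?, x.1 = y.1 → x.2 = y.2) :
    (w * mk L).toWord = w.toWord ++ L := by
  conv_lhs => rw [← mk_toWord (x := w), mul_mk, toWord_mk]
  exact FreeGroup.IsReduced.reduce_eq (List.isChain_append.2 ⟨isReduced_toWord, hL, h⟩)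

theorem Marked.tail {w : FG} (h : Marked w) {L : List Lt} (hL : Pos L)
    (ha : L.head? = some (0, true)) :
    (w * mk L).toWord.reverse.takeWhile (fun x => x.2) = L.reverse := by
  rw [toWord_mul_mk hL.isReduced]
  · obtain ⟨u, hu⟩ := List.getLast?_eq_some_iff.1 h
    rw [hu, List.reverse_append, List.takeWhile_append_of_pos]
    · simp
    · exact fun a ha => hL a (List.mem_reverse.1 ha)
  · unfold Marked at h
    rw [h, ha]
    simp

theorem Marked.unique {w w' : FG} (h : Marked w) (h' : Marked w') {L L' : List Lt} (hL : Pos L)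
    (hL' : Pos L') (ha : L.head? = some (0, true)) (ha' : L'.head? = some (0, true))
    (e : w * mk L = w' * mk L') : L = L' := by
  have := h.tail hL ha
  rw [e, h'.tail hL' ha'] at this
  exact (List.reverse_inj.1 this).symm

theorem marked_or (w : FG) :
    Marked (w * mk [(1, false)]) ∨ Marked (w * mk [(0, true), (1, false)]) := by
  unfold Marked
  by_cases h : w.toWord.getLast? = some (1, true)
  · right
    rw [toWord_mul_mk (by simp [FreeGroup.IsReduced]) (by rw [h]; simp)]
    simp
  · left
    rw [toWord_mul_mk (by simp [FreeGroup.IsReduced])]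
    · simp
    · rintro ⟨x, b⟩ hx y hy hxy
      simp only [List.head?_cons, Option.mem_def, Option.some.injEq] at hy hx
      subst hy
      dsimp only at hxy ⊢
      subst hxy
      cases b
      · rfl
      · exact absurd hx h

/-- The block `U^n V`. -/
def code (U V : List Lt) : ℕ → List Lt
  | 0 => V
  | n + 1 => U ++ code U V n

/-- Concatenation of blocks. -/
def enc (U V : List Lt) : List ℕ → List Lt
  | [] => []
  | n :: x => code U V n ++ enc U V x

theorem enc_append (U V : List Lt) (x y : List ℕ) :
    enc U V (x ++ y) = enc U V x ++ enc U V y := by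
  induction x with
  | nil => rfl
  | cons n x ih => simp [enc, ih]

theorem mk_code (U V : List Lt) (n : ℕ) : mk (code U V n) = mk U ^ n * mk V := by
  induction n with
  | zero => simp [code]
  | succ n ih => rw [code, ← mul_mk, ih, pow_succ', mul_assoc]

theorem pos_code {U V : List Lt} (hU : Pos U) (hV : Pos V) (n : ℕ) : Pos (code U V n) := by
  induction n with
  | zero => exact hV
  | succ n ih => exact fun x hx => (List.mem_append.1 hx).elim (hU x) (ih x)

theorem pos_enc {U V : List Lt} (hU : Pos U) (hV : Pos V) (x : List ℕ) : Pos (enc U V x) := by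
  induction x with
  | nil => exact fun x hx => by simp [enc] at hx
  | cons n x ih => exact fun y hy => (List.mem_append.1 hy).elim (pos_code hU hV n y) (ih y)

theorem code_inj {u v : Lt} (huv : u ≠ v) (U V X Y : List Lt) : ∀ n m : ℕ,
    code (u :: U) (v :: V) n ++ X = code (u :: U) (v :: V) m ++ Y → n = m
  | 0, 0, _ => rfl
  | 0, m + 1, h => by simp [code, huv.symm] at h
  | n + 1, 0, h => by simp [code, huv] at h
  | n + 1, m + 1, h => by
    simp only [code, List.append_assoc, List.append_cancel_left_eq] at h
    rw [code_inj huv U V X Y n m h]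

theorem code_ne_nil (u v : Lt) (U V : List Lt) (n : ℕ) : code (u :: U) (v :: V) n ≠ [] := by
  cases n <;> simp [code]

theorem enc_inj {u v : Lt} (huv : u ≠ v) (U V : List Lt) : ∀ x y : List ℕ,
    enc (u :: U) (v :: V) x = enc (u :: U) (v :: V) y → x = y
  | [], [], _ => rfl
  | [], m :: y, h => by simp [enc, code_ne_nil] at h
  | n :: x, [], h => by simp [enc, code_ne_nil] at h
  | n :: x, m :: y, h => by
    obtain rfl := code_inj huv U V _ _ n m h
    simp only [enc, List.append_cancel_left_eq] at h
    rw [enc_inj huv U V x y h]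

end Pool.Agent.Lib.MP_9e6b46_al.LU
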